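import Pool.Agent.R378.Rep
import Pool.Agent.Results.MP_c81d26_co.SigningsCount

/-!
# The Komlós problem with an adversary who owns half of the signs

Let `v_1, …, v_n` be vectors in the Euclidean unit ball of `ℝ^d` and let `J` be a set of indices.
The signs `ε_1, …, ε_n` are chosen in this order, those with an index in `J` by an adversary, who
knows everything so far, and the others by the player, who does not know the future. The set `J` is
winnable for `R` if the player can force that the signing has value at most `R`.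

(1) The number of the sets `J` which are winnable for `R` is the number of the signings of value at
most `R`.

(2) If all subfamilies of `v_1, …, v_n` have signings of value at most `B`, then for every `D > 0`
at least `2^n exp (-15200 n / D²)` sets are winnable for `B + D`, and one of them has at least
`n / 2 - 88 n / D` elements.

(3) There is an absolute constant `C` such that for all `D > 0` at least `2^n exp (-15200 n / D²)`
sets are winnable for `C (1 + log (1 + min n d))^{1/4} + D`, and one of them has at least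
`n / 2 - 88 n / D` elements.

(4), (5) Komlós's conjecture holds if and only if there is a constant `C` such that for all families
in the unit ball and all `D ≥ C` at least `2^n exp (-C n / D²)` sets are winnable for `D`; and if
and only if there is a constant `C` such that for all families in the unit ball and all `D ≥ C` some
set with at least `n / 2 - C n / D` elements is winnable for `D`.

(6) Both the number and the size are best possible up to the constants: for every `D ≥ 1` there are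
arbitrarily large families of unit vectors such that at most `2^n exp (- n / (25 D²))` sets are
winnable for `D`, and all of them have at most `n / 2 + n / (8 D)` elements.
-/

set_option autoImplicit false

namespace Pool.Agent.Results.MP_c81d26_co.AdversarialSigns

open Finset Pool.Agent.R814.Game Pool.Agent.R378

/-- The vectors `v_1, …, v_n` lie in the closed Euclidean unit ball of `ℝ^d`. -/
def InBall {n d : ℕ} (v : Fin n → Fin d → ℝ) : Prop := ∀ i, ∑ k, v i k ^ 2 ≤ 1

/-- The signing `ε` has value at most `R`. -/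
def ValueLE {n d : ℕ} (v : Fin n → Fin d → ℝ) (R : ℝ) (ε : Fin n → ℤˣ) : Prop :=
  ∀ k, |∑ i, ((ε i : ℤ) : ℝ) * v i k| ≤ R

/-- The player, who chooses the signs with an index outside `J`, has a strategy `σ` which forces
that the signing has value at most `R`, whatever the signs with an index in `J` are. The sign
`σ j ε` depends only on the signs `ε_i`, `i < j`. -/
def Winnable {n d : ℕ} (v : Fin n → Fin d → ℝ) (R : ℝ) (J : Finset (Fin n)) : Prop :=
  ∃ σ : Fin n → (Fin n → ℤˣ) → ℤˣ,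
    (∀ j ε ε', (∀ i, i < j → ε i = ε' i) → σ j ε = σ j ε') ∧
    ∀ ε : Fin n → ℤˣ, (∀ j, j ∉ J → ε j = σ j ε) → ValueLE v R ε

theorem part1 (n d : ℕ) (v : Fin n → Fin d → ℝ) (R : ℝ) :
    Nat.card {J : Finset (Fin n) // Winnable v R J} = Nat.card {ε : Fin n → ℤˣ // ValueLE v R ε} :=
  card_wins (ValueLE v R)

/-- many signings give many winnable sets and a large one -/
theorem large {n d : ℕ} (v : Fin n → Fin d → ℝ) (R a s : ℝ) (hs : 0 ≤ s) (has : a < 2 * s ^ 2)
    (h : 2 ^ n * Real.exp (-(a * n)) ≤ (Nat.card {ε : Fin n → ℤˣ // ValueLE v R ε} : ℝ)) :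
    ∃ J, Winnable v R J ∧ (n : ℝ) / 2 - s * n ≤ J.card := by
  rw [← part1] at h
  exact exists_large (Winnable v R) a s hs has h

theorem two_of_count {n d : ℕ} (v : Fin n → Fin d → ℝ) (R K s D : ℝ) (hs : 0 ≤ s) (hD : 0 < D)
    (hK : K < 2 * s ^ 2)
    (h : 2 ^ n * Real.exp (-(K * n / D ^ 2)) ≤
      (Nat.card {ε : Fin n → ℤˣ // ValueLE v R ε} : ℝ)) :
    2 ^ n * Real.exp (-(K * n / D ^ 2)) ≤ (Nat.card {J : Finset (Fin n) // Winnable v R J} : ℝ) ∧
    ∃ J, Winnable v R J ∧ (n : ℝ) / 2 - s * n / D ≤ J.card := by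
  constructor
  · rw [part1]; exact h
  · have h1 := large v R (K / D ^ 2) (s / D) (by positivity) (by
      rw [div_pow, ← mul_div_assoc]
      exact div_lt_div_of_pos_right hK (by positivity)) (by
      refine le_trans (le_of_eq ?_) h
      congr 2
      ring)
    obtain ⟨J, hJ1, hJ2⟩ := h1
    refine ⟨J, hJ1, ?_⟩
    refine le_trans (le_of_eq ?_) hJ2
    ring

theorem part2 (n d : ℕ) (v : Fin n → Fin d → ℝ) (B D : ℝ) (hv : InBall v) (hD : 0 < D)
    (hB : ∀ I : Finset (Fin n), ∃ ε : Fin n → ℤˣ, ∀ k, |∑ i ∈ I, ((ε i : ℤ) : ℝ) * v i k| ≤ B) :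
    2 ^ n * Real.exp (-(15200 * n / D ^ 2)) ≤
      (Nat.card {J : Finset (Fin n) // Winnable v (B + D) J} : ℝ) ∧
    ∃ J, Winnable v (B + D) J ∧ (n : ℝ) / 2 - 88 * n / D ≤ J.card :=
  two_of_count v _ _ _ _ (by norm_num) hD (by norm_num)
    (Pool.Agent.Results.MP_c81d26_co.SigningsCount.transfer n d v B D hv hD hB)

theorem part3 : ∃ C : ℝ, ∀ (n d : ℕ) (v : Fin n → Fin d → ℝ) (D : ℝ), InBall v → 0 < D →
    2 ^ n * Real.exp (-(15200 * n / D ^ 2)) ≤ (Nat.card {J : Finset (Fin n) //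
      Winnable v (C * (1 + Real.log (1 + (min n d : ℕ))) ^ (1 / 4 : ℝ) + D) J} : ℝ) ∧
    ∃ J, Winnable v (C * (1 + Real.log (1 + (min n d : ℕ))) ^ (1 / 4 : ℝ) + D) J ∧
      (n : ℝ) / 2 - 88 * n / D ≤ J.card := by
  obtain ⟨C, hC⟩ := Pool.Agent.Results.MP_c81d26_co.SigningsCount.part2
  exact ⟨C, fun n d v D hv hD => two_of_count v _ _ _ _ (by norm_num) hD (by norm_num)
    (hC n d v D hv hD)⟩

theorem signs_of_winnable {n d : ℕ} {v : Fin n → Fin d → ℝ} {R : ℝ} {J : Finset (Fin n)}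
    (h : Winnable v R J) : ∃ ε : Fin n → ℝ, (∀ i, ε i = 1 ∨ ε i = -1) ∧
      ∀ k, |∑ i, ε i * v i k| ≤ R := by
  obtain ⟨ε, hε⟩ := Wins.exists_sign (F := ValueLE v R) (J := J) h
  exact ⟨fun i => ((ε i : ℤ) : ℝ),
    fun i => Pool.Agent.Results.MP_c81d26_co.SigningsCount.units_real _, hε⟩

theorem part4 :
    (∃ c : ℝ, 0 < c ∧ ∀ (n d : ℕ) (v : Fin n → Fin d → ℝ), InBall v →
      ∃ ε : Fin n → ℝ, (∀ i, ε i = 1 ∨ ε i = -1) ∧ ∀ k, |∑ i, ε i * v i k| ≤ c) ↔
    ∃ C : ℝ, 0 < C ∧ ∀ (n d : ℕ) (v : Fin n → Fin d → ℝ), InBall v → ∀ D : ℝ, C ≤ D →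
      2 ^ n * Real.exp (-(C * n / D ^ 2)) ≤
        (Nat.card {J : Finset (Fin n) // Winnable v D J} : ℝ) := by
  simp_rw [part1]
  exact Pool.Agent.Results.MP_c81d26_co.SigningsCount.part3

theorem part5 :
    (∃ c : ℝ, 0 < c ∧ ∀ (n d : ℕ) (v : Fin n → Fin d → ℝ), InBall v →
      ∃ ε : Fin n → ℝ, (∀ i, ε i = 1 ∨ ε i = -1) ∧ ∀ k, |∑ i, ε i * v i k| ≤ c) ↔
    ∃ C : ℝ, 0 < C ∧ ∀ (n d : ℕ) (v : Fin n → Fin d → ℝ), InBall v → ∀ D : ℝ, C ≤ D →
      ∃ J, Winnable v D J ∧ (n : ℝ) / 2 - C * n / D ≤ J.card := by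
  constructor
  · intro hK
    obtain ⟨C, hC, h⟩ := Pool.Agent.Results.MP_c81d26_co.SigningsCount.part3.1 hK
    refine ⟨C + 1, by positivity, fun n d v hv D hD => ?_⟩
    have hD0 : 0 < D := by linarith
    exact (two_of_count v D C (C + 1) D (by positivity) hD0 (by nlinarith)
      (h n d v hv D (by linarith))).2
  · rintro ⟨C, hC, h⟩
    refine ⟨C, hC, fun n d v hv => ?_⟩
    obtain ⟨J, hJ, _⟩ := h n d v hv C le_rfl
    exact signs_of_winnable hJ

/-- blocks of equal unit vectors -/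
theorem few_block (N k : ℕ) (D : ℝ) (hD : 1 ≤ D) (hk1 : 4 * D ^ 2 ≤ k) (hk2 : (k:ℝ) ≤ 5 * D ^ 2) :
    (Nat.card {ε : Fin (N * k) → ℤˣ // ValueLE (fun (i : Fin (N * k)) (j : Fin N) =>
        if Rep.blk N k i = j then (1:ℝ) else 0) D ε} : ℝ) ≤
      2 ^ (N * k) * Real.exp (-(((N * k : ℕ) : ℝ) / (25 * D ^ 2))) := by
  classical
  have hcard : Nat.card {ε : Fin (N * k) → ℤˣ // ValueLE (fun (i : Fin (N * k)) (j : Fin N) =>
        if Rep.blk N k i = j then (1:ℝ) else 0) D ε} =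
      Nat.card {ε : Fin k → ℤˣ // |∑ i, ((ε i : ℤ) : ℝ)| ≤ D} ^ N := by
    have h2 : Nat.card {ε : Fin k → ℤˣ // |∑ i, ((ε i : ℤ) : ℝ)| ≤ D} ^ N =
        Nat.card (Fin N → {ε : Fin k → ℤˣ // |∑ i, ((ε i : ℤ) : ℝ)| ≤ D}) := by
      rw [Nat.card_fun, Nat.card_fin]
    rw [h2]
    have key : ∀ (ε : Fin (N * k) → ℤˣ) (j : Fin N),
        ∑ i, ((ε i : ℤ) : ℝ) * (if Rep.blk N k i = j then (1:ℝ) else 0) =
        ∑ l : Fin k, ((ε (finProdFinEquiv (j, l)) : ℤ) : ℝ) := by
      intro ε j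
      unfold Rep.blk
      rw [← Equiv.sum_comp finProdFinEquiv, Fintype.sum_prod_type]
      simp only [Equiv.symm_apply_apply]
      rw [Finset.sum_eq_single j]
      · simp
      · intro b _ hb
        simp [hb]
      · simp
    refine Nat.card_congr
      { toFun := fun ε j => ⟨fun l => ε.1 (finProdFinEquiv (j, l)), ?_⟩
        invFun := fun f => ⟨fun i => (f (finProdFinEquiv.symm i).1).1
          (finProdFinEquiv.symm i).2, ?_⟩
        left_inv := ?_
        right_inv := ?_ }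
    · have := ε.2 j
      rw [key] at this
      exact this
    · intro j
      rw [key]
      simp only [Equiv.symm_apply_apply]
      exact (f j).2
    · intro ε
      apply Subtype.ext
      funext i
      exact congrArg ε.1 (finProdFinEquiv.apply_symm_apply i)
    · intro f
      funext j
      apply Subtype.ext
      funext l
      simp
  rw [hcard]
  push_cast
  have h3 := Pool.Agent.Y774.KC.small_sum k D (by linarith) hk1
  have h4 := pow_le_pow_left₀ (by positivity) h3 N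
  refine h4.trans ?_
  rw [mul_pow, mul_comm, ← pow_mul, mul_comm k N]
  apply mul_le_mul_of_nonneg_left _ (by positivity)
  have h5 : ((13:ℝ) / 16) ^ N ≤ Real.exp (-(1 / 5)) ^ N :=
    pow_le_pow_left₀ (by norm_num) Pool.Agent.Results.MP_c81d26_co.SigningsCount.exp_fifth N
  refine h5.trans ?_
  rw [← Real.exp_nat_mul]
  apply Real.exp_le_exp.2
  have hN : (0:ℝ) ≤ N := by positivity
  have hDp : 0 < D ^ 2 := by positivity
  have h6 : (N:ℝ) * k / (25 * D ^ 2) ≤ N * (1 / 5) := by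
    rw [div_le_iff₀ (by positivity)]
    nlinarith
  linarith

theorem part6 (D : ℝ) (hD : 1 ≤ D) (N : ℕ) :
    ∃ (n d : ℕ) (v : Fin n → Fin d → ℝ), N ≤ n ∧ (∀ i, ∑ k, v i k ^ 2 = 1) ∧
      (Nat.card {J : Finset (Fin n) // Winnable v D J} : ℝ) ≤
        2 ^ n * Real.exp (-(n / (25 * D ^ 2))) ∧
      ∀ J, Winnable v D J → (J.card : ℝ) ≤ n / 2 + n / (8 * D) := by
  classical
  set k : ℕ := ⌈4 * D ^ 2⌉₊ with hk
  have hk1 : 4 * D ^ 2 ≤ k := Nat.le_ceil _
  have hk2 : (k:ℝ) ≤ 5 * D ^ 2 := by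
    have := Nat.ceil_lt_add_one (by positivity : (0:ℝ) ≤ 4 * D ^ 2)
    have h1 : 1 ≤ D ^ 2 := one_le_pow₀ hD
    rw [← hk] at this
    linarith
  have hk0 : 1 ≤ k := by
    have h1 : 1 ≤ D ^ 2 := one_le_pow₀ hD
    have : (1:ℝ) ≤ k := by linarith
    exact_mod_cast this
  refine ⟨N * k, N, fun i j => if Rep.blk N k i = j then 1 else 0,
    Nat.le_mul_of_pos_right N hk0, ?_, ?_, ?_⟩
  · intro i
    have h1 : ∀ j, (if Rep.blk N k i = j then (1:ℝ) else 0) ^ 2 =
        if Rep.blk N k i = j then (1:ℝ) else 0 := by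
      intro j
      split_ifs <;> norm_num
    simp_rw [h1]
    simp
  · rw [part1]
    exact few_block N k D hD hk1 hk2
  · intro J hJ
    have h1 : ∀ j, 2 * ((J ∩ Rep.B N k j).card : ℝ) ≤ k + D := by
      intro j
      have h2 := Rep.wins_card (J := J) hJ (Rep.B N k j) D (fun ε hε => by
        have h3 := hε j
        have h4 : ∑ i, ((ε i : ℤ) : ℝ) * (if Rep.blk N k i = j then (1:ℝ) else 0) =
            Khin.S (Rep.B N k j) ε := by
          unfold Khin.S Rep.B
          rw [Finset.sum_filter]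
          refine Finset.sum_congr rfl fun i _ => ?_
          split_ifs <;> simp
        rw [h4] at h3
        exact (le_abs_self _).trans h3)
      rwa [Rep.card_B] at h2
    have h2 := Finset.sum_le_sum (s := univ) fun (j : Fin N) _ => h1 j
    rw [← Finset.mul_sum, Finset.sum_const, Finset.card_univ, Fintype.card_fin,
      nsmul_eq_mul] at h2
    have h3 := Rep.card_blocks N k J
    have h4 : (J.card : ℝ) = ∑ j, ((J ∩ Rep.B N k j).card : ℝ) := by
      rw [h3]; push_cast; rfl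
    rw [← h4] at h2
    have hD0 : 0 < D := by linarith
    have h5 : (N:ℝ) * (D / 2) ≤ ((N * k : ℕ) : ℝ) / (8 * D) := by
      rw [le_div_iff₀ (by positivity)]
      push_cast
      have h6 : (N:ℝ) * (4 * D ^ 2) ≤ N * k := mul_le_mul_of_nonneg_left hk1 (by positivity)
      calc (N:ℝ) * (D / 2) * (8 * D) = N * (4 * D ^ 2) := by ring
        _ ≤ N * k := h6
    push_cast at h5 ⊢
    linarith

/-- **The Komlós problem with an adversary who owns half of the signs**: see the header. -/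
theorem result :
    -- (1) the number of winnable sets
    (∀ (n d : ℕ) (v : Fin n → Fin d → ℝ) (R : ℝ),
      Nat.card {J : Finset (Fin n) // Winnable v R J} =
        Nat.card {ε : Fin n → ℤˣ // ValueLE v R ε}) ∧
    -- (2) transfer
    (∀ (n d : ℕ) (v : Fin n → Fin d → ℝ) (B D : ℝ), InBall v → 0 < D →
      (∀ I : Finset (Fin n), ∃ ε : Fin n → ℤˣ, ∀ k, |∑ i ∈ I, ((ε i : ℤ) : ℝ) * v i k| ≤ B) →
      2 ^ n * Real.exp (-(15200 * n / D ^ 2)) ≤
        (Nat.card {J : Finset (Fin n) // Winnable v (B + D) J} : ℝ) ∧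
      ∃ J, Winnable v (B + D) J ∧ (n : ℝ) / 2 - 88 * n / D ≤ J.card) ∧
    -- (3) the unconditional bound
    (∃ C : ℝ, ∀ (n d : ℕ) (v : Fin n → Fin d → ℝ) (D : ℝ), InBall v → 0 < D →
      2 ^ n * Real.exp (-(15200 * n / D ^ 2)) ≤ (Nat.card {J : Finset (Fin n) //
        Winnable v (C * (1 + Real.log (1 + (min n d : ℕ))) ^ (1 / 4 : ℝ) + D) J} : ℝ) ∧
      ∃ J, Winnable v (C * (1 + Real.log (1 + (min n d : ℕ))) ^ (1 / 4 : ℝ) + D) J ∧
        (n : ℝ) / 2 - 88 * n / D ≤ J.card) ∧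
    -- (4) Komlós's conjecture and the number of winnable sets
    ((∃ c : ℝ, 0 < c ∧ ∀ (n d : ℕ) (v : Fin n → Fin d → ℝ), InBall v →
        ∃ ε : Fin n → ℝ, (∀ i, ε i = 1 ∨ ε i = -1) ∧ ∀ k, |∑ i, ε i * v i k| ≤ c) ↔
      ∃ C : ℝ, 0 < C ∧ ∀ (n d : ℕ) (v : Fin n → Fin d → ℝ), InBall v → ∀ D : ℝ, C ≤ D →
        2 ^ n * Real.exp (-(C * n / D ^ 2)) ≤
          (Nat.card {J : Finset (Fin n) // Winnable v D J} : ℝ)) ∧
    -- (5) Komlós's conjecture and large winnable sets
    ((∃ c : ℝ, 0 < c ∧ ∀ (n d : ℕ) (v : Fin n → Fin d → ℝ), InBall v →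
        ∃ ε : Fin n → ℝ, (∀ i, ε i = 1 ∨ ε i = -1) ∧ ∀ k, |∑ i, ε i * v i k| ≤ c) ↔
      ∃ C : ℝ, 0 < C ∧ ∀ (n d : ℕ) (v : Fin n → Fin d → ℝ), InBall v → ∀ D : ℝ, C ≤ D →
        ∃ J, Winnable v D J ∧ (n : ℝ) / 2 - C * n / D ≤ J.card) ∧
    -- (6) sharpness
    (∀ D : ℝ, 1 ≤ D → ∀ N : ℕ, ∃ (n d : ℕ) (v : Fin n → Fin d → ℝ), N ≤ n ∧
      (∀ i, ∑ k, v i k ^ 2 = 1) ∧
      (Nat.card {J : Finset (Fin n) // Winnable v D J} : ℝ) ≤
        2 ^ n * Real.exp (-(n / (25 * D ^ 2))) ∧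
      ∀ J, Winnable v D J → (J.card : ℝ) ≤ n / 2 + n / (8 * D)) :=
  ⟨part1, part2, part3, part4, part5, part6⟩

end Pool.Agent.Results.MP_c81d26_co.AdversarialSigns
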