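import Mathlib
import Pool.Agent.H663R5.BF.Struct

/-!
# The Komlós problem for vectors of low query complexity

1. Let `v_j = w_j + ∑_l a_l 1_{f_l(j) = g_l(·)}`, where `‖w_j‖_1 ≤ β` and the sum is a combination of
   equality relations between labels `f_l(j)` of the vectors and labels `g_l(i)` of the coordinates. Then
   there are signs such that all coordinates of the signed sum of the `v_j` are at most
   `2 β + 2 (∑ √|a_l|)²`. The numbers of vectors, coordinates and terms are arbitrary.
2. Suppose that the `i`-th coordinate of `u_j` is computed by a protocol with at most `c` queries, each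
   asking whether a label of `j` equals a label of `i`, with outputs in `[-1, 1]`, and that
   `‖w_j‖_1 ≤ β`. Then there are signs such that all coordinates of the signed sum of the `u_j + w_j` are
   at most `2 β + 2 * 9 ^ c`.
3. In particular the bound of Komlós holds, with the constant `2 * 9 ^ c`, for all vectors in the unit
   ball whose coordinates are computed by protocols with at most `c` equality queries (and arbitrary
   outputs).

Proof. A protocol is a combination of `3 ^ c` equality relations. Give the class of a label for the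
`l`-th relation the weight `T_l = 2 s / √|a_l|`, `s = ∑ √|a_l|`, and the `i`-th coordinate of the `w_j`
the weight `2 β`. For every nonempty set `X` of vectors fewer than `|X|` of these linear forms have
an `ℓ¹` norm on `X` which is greater than their weight. By the Hall type signing theorem of the
starting library there are signs for which all forms are at most their weights.
-/

set_option autoImplicit false

namespace Pool.Agent.Results.MP_c81d26_co.EqualityQueries

open Finset

/-- **Combinations of equality relations, and a part with small `ℓ¹` norm.** -/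
theorem combinations {ι : Type} [Fintype ι] {d n : ℕ} (a : ι → ℝ) (f : ι → Fin n → ℕ)
    (g : ι → Fin d → ℕ) (w : Fin n → Fin d → ℝ) (β : ℝ) (hw : ∀ j, ∑ i, |w j i| ≤ β)
    (hβ : 0 ≤ β) :
    ∃ χ : Fin n → ℝ, (∀ j, χ j = 1 ∨ χ j = -1) ∧
      ∀ i, |∑ j, χ j * (w j i + ∑ l, if f l j = g l i then a l else 0)| ≤
        2 * β + 2 * (∑ l, Real.sqrt |a l|) ^ 2 := by
  classical
  obtain ⟨L, hL⟩ : ∃ L : ℕ, ∀ l j, f l j < L := by
    refine ⟨(univ : Finset (ι × Fin n)).sup (fun p => f p.1 p.2) + 1, fun l j => ?_⟩
    exact Nat.lt_succ_of_le (le_sup (f := fun p : ι × Fin n => f p.1 p.2) (mem_univ (l, j)))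
  set s := ∑ l, Real.sqrt |a l| with hs
  have hs0 : 0 ≤ s := sum_nonneg fun _ _ => Real.sqrt_nonneg _
  have hsl : ∀ l, Real.sqrt |a l| ≤ s := fun l =>
    single_le_sum (f := fun l => Real.sqrt |a l|) (fun _ _ => Real.sqrt_nonneg _) (mem_univ l)
  set Tl : ι → ℝ := fun l => if a l = 0 then (n : ℝ) else 2 * s / Real.sqrt |a l| with hTl
  have hTl0 : ∀ l, 0 ≤ Tl l := by
    intro l
    simp only [hTl]
    split_ifs
    · exact Nat.cast_nonneg _
    · positivity
  let R := Fin d ⊕ (ι × Fin L)
  set e := (Fintype.equivFin R).symm with he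
  let A0 : R → Fin n → ℝ := fun r j => Sum.elim (fun i => w j i)
    (fun p => if f p.1 j = p.2.1 then 1 else 0) r
  let T0 : R → ℝ := Sum.elim (fun _ => 2 * β) (fun p => Tl p.1)
  have hT0 : ∀ r, 0 ≤ T0 r := by
    intro r
    rcases r with i | p
    · show 0 ≤ 2 * β
      linarith
    · exact hTl0 p.1
  have hrow : ∀ (X : Finset (Fin n)) (p : ι × Fin L), ∑ j ∈ X, |A0 (Sum.inr p) j| =
      ((X.filter (fun j => f p.1 j = p.2.1)).card : ℝ) := by
    intro X p
    rw [card_filter]
    push_cast
    apply sum_congr rfl
    intro j _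
    show |if f p.1 j = p.2.1 then (1 : ℝ) else 0| = _
    split_ifs <;> simp
  have key : ∀ X : Finset (Fin n), X.Nonempty →
      ((univ : Finset R).filter (fun r => T0 r < ∑ j ∈ X, |A0 r j|)).card < X.card := by
    intro X hX
    have hXc : (0 : ℝ) < X.card := by exact_mod_cast card_pos.2 hX
    -- the coordinates of the sparse part
    set B1 := (univ : Finset (Fin d)).filter (fun i => 2 * β < ∑ j ∈ X, |w j i|) with hB1
    have hb1 : (B1.card : ℝ) < X.card / 2 := by
      rcases B1.eq_empty_or_nonempty with h0 | h0
      · rw [h0, card_empty, Nat.cast_zero]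
        linarith
      · have h1 : ∑ _i ∈ B1, 2 * β < ∑ i ∈ B1, ∑ j ∈ X, |w j i| :=
          sum_lt_sum_of_nonempty h0 fun i hi => (mem_filter.1 hi).2
        have h2 : ∑ i ∈ B1, ∑ j ∈ X, |w j i| ≤ X.card * β := by
          calc ∑ i ∈ B1, ∑ j ∈ X, |w j i| ≤ ∑ i, ∑ j ∈ X, |w j i| :=
                sum_le_sum_of_subset_of_nonneg (subset_univ _) fun _ _ _ =>
                  sum_nonneg fun _ _ => abs_nonneg _
            _ = ∑ j ∈ X, ∑ i, |w j i| := sum_comm
            _ ≤ ∑ _j ∈ X, β := sum_le_sum fun j _ => hw j
            _ = X.card * β := by rw [sum_const, nsmul_eq_mul]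
        rw [sum_const, nsmul_eq_mul] at h1
        have h3 : (B1.card : ℝ) * (2 * β) < X.card * β := lt_of_lt_of_le h1 h2
        have h4 : 0 < β := by
          rcases hβ.lt_or_eq with h | h
          · exact h
          · rw [← h] at h3
            simp at h3
        nlinarith
    -- the classes
    set B2 : ι → Finset (Fin L) := fun l => (univ : Finset (Fin L)).filter
      (fun c => Tl l < ((X.filter (fun j => f l j = c.1)).card : ℝ)) with hB2
    have hfib : ∀ l, ∑ c : Fin L, (X.filter (fun j => f l j = c.1)).card = X.card := by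
      intro l
      have h3 := card_eq_sum_card_fiberwise (f := fun j => (⟨f l j, hL l j⟩ : Fin L))
        (s := X) (t := univ) (fun _ _ => mem_coe.2 (mem_univ _))
      rw [h3]
      apply sum_congr rfl
      intro c _
      congr 1
      ext j
      simp only [mem_filter, Fin.ext_iff]
    have hb2 : ∀ l, ((B2 l).card : ℝ) * (2 * s) ≤ Real.sqrt |a l| * X.card := by
      intro l
      by_cases hal : a l = 0
      · have h1 : B2 l = ∅ := by
          rw [hB2]
          apply filter_eq_empty_iff.2
          intro c _
          simp only [hTl, if_pos hal, not_lt]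
          have h2 : (X.filter (fun j => f l j = c.1)).card ≤ n := by
            have := card_le_univ (X.filter (fun j => f l j = c.1))
            rwa [Fintype.card_fin] at this
          exact_mod_cast h2
        rw [h1, card_empty, Nat.cast_zero, zero_mul]
        positivity
      · have hsq : 0 < Real.sqrt |a l| := Real.sqrt_pos.2 (abs_pos.2 hal)
        have h1 : ((B2 l).card : ℝ) * Tl l ≤ X.card := by
          calc ((B2 l).card : ℝ) * Tl l = ∑ _c ∈ B2 l, Tl l := by rw [sum_const, nsmul_eq_mul]
            _ ≤ ∑ c ∈ B2 l, ((X.filter (fun j => f l j = c.1)).card : ℝ) :=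
                sum_le_sum fun c hc => (mem_filter.1 hc).2.le
            _ ≤ ∑ c : Fin L, ((X.filter (fun j => f l j = c.1)).card : ℝ) :=
                sum_le_sum_of_subset_of_nonneg (subset_univ _) fun _ _ _ => Nat.cast_nonneg _
            _ = X.card := by exact_mod_cast hfib l
        simp only [hTl, if_neg hal] at h1
        have h2 : ((B2 l).card : ℝ) * (2 * s) = ((B2 l).card : ℝ) * (2 * s / Real.sqrt |a l|) *
            Real.sqrt |a l| := by
          field_simp
        rw [h2, mul_comm (Real.sqrt |a l|)]
        exact mul_le_mul_of_nonneg_right h1 hsq.le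
    have hb3 : (∑ l, ((B2 l).card : ℝ)) ≤ X.card / 2 := by
      rcases hs0.lt_or_eq with hs1 | hs1
      · have h1 : (∑ l, ((B2 l).card : ℝ)) * (2 * s) ≤ s * X.card := by
          rw [sum_mul]
          calc ∑ l, ((B2 l).card : ℝ) * (2 * s) ≤ ∑ l, Real.sqrt |a l| * X.card :=
                sum_le_sum fun l _ => hb2 l
            _ = s * X.card := by rw [← sum_mul]
        nlinarith
      · have h1 : ∑ l, ((B2 l).card : ℝ) = 0 := by
          apply sum_eq_zero
          intro l _
          have h2 : Real.sqrt |a l| = 0 := le_antisymm (by rw [hs1]; exact hsl l)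
            (Real.sqrt_nonneg _)
          have h3 : a l = 0 := by
            rw [Real.sqrt_eq_zero (abs_nonneg _), abs_eq_zero] at h2
            exact h2
          have h4 : B2 l = ∅ := by
            rw [hB2]
            apply filter_eq_empty_iff.2
            intro c _
            simp only [hTl, if_pos h3, not_lt]
            have h2 : (X.filter (fun j => f l j = c.1)).card ≤ n := by
              have := card_le_univ (X.filter (fun j => f l j = c.1))
              rwa [Fintype.card_fin] at this
            exact_mod_cast h2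
          rw [h4, card_empty, Nat.cast_zero]
        rw [h1]
        positivity
    have hsplit : ((univ : Finset R).filter (fun r => T0 r < ∑ j ∈ X, |A0 r j|)).card =
        B1.card + ∑ l, (B2 l).card := by
      rw [card_filter, Fintype.sum_sum_type]
      congr 1
      · rw [hB1, card_filter]
        rfl
      · rw [Fintype.sum_prod_type]
        apply sum_congr rfl
        intro l _
        rw [hB2, card_filter]
        apply sum_congr rfl
        intro c _
        have h1 := hrow X (l, c)
        have h2 : T0 (Sum.inr (l, c)) = Tl l := rfl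
        rw [h1, h2]
    have h1 : ((B1.card + ∑ l, (B2 l).card : ℕ) : ℝ) < X.card := by
      push_cast
      linarith
    rw [hsplit]
    exact_mod_cast h1
  obtain ⟨x, hx⟩ := H294BF.hall_signing (fun r j => A0 (e r) j) (fun r => T0 (e r))
    (fun r => hT0 _) (by
      intro X hX
      refine lt_of_le_of_lt (le_of_eq ?_) (key X hX)
      rw [card_filter, card_filter]
      exact Equiv.sum_comp e (fun r : R => if T0 r < ∑ j ∈ X, |A0 r j| then 1 else 0))
  refine ⟨fun j => H294BF.sg (x j), fun j => by
    rcases Bool.eq_false_or_eq_true (x j) with h | h <;> simp [H294BF.sg, h], ?_⟩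
  intro i
  have hx' : ∀ r : R, |∑ j, A0 r j * H294BF.sg (x j)| ≤ T0 r := by
    intro r
    have h1 := hx (e.symm r)
    simp only [H294BF.row, Equiv.apply_symm_apply] at h1
    exact h1
  have hcl : ∀ l, |a l| * |∑ j, (if f l j = g l i then (1 : ℝ) else 0) * H294BF.sg (x j)| ≤
      2 * s * Real.sqrt |a l| := by
    intro l
    by_cases hal : a l = 0
    · rw [hal]
      simp
    · have hsq : 0 < Real.sqrt |a l| := Real.sqrt_pos.2 (abs_pos.2 hal)
      have hc : |∑ j, (if f l j = g l i then (1 : ℝ) else 0) * H294BF.sg (x j)| ≤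
          2 * s / Real.sqrt |a l| := by
        by_cases hgl : g l i < L
        · have h1 := hx' (Sum.inr (l, ⟨g l i, hgl⟩))
          have h2 : T0 (Sum.inr (l, ⟨g l i, hgl⟩)) = 2 * s / Real.sqrt |a l| := by
            show Tl l = _
            simp only [hTl, if_neg hal]
          rw [h2] at h1
          exact h1
        · have h1 : ∑ j, (if f l j = g l i then (1 : ℝ) else 0) * H294BF.sg (x j) = 0 := by
            apply sum_eq_zero
            intro j _
            rw [if_neg, zero_mul]
            have := hL l j
            omega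
          rw [h1, abs_zero]
          positivity
      have h3 : |a l| = Real.sqrt |a l| * Real.sqrt |a l| :=
        (Real.mul_self_sqrt (abs_nonneg _)).symm
      calc |a l| * |∑ j, (if f l j = g l i then (1 : ℝ) else 0) * H294BF.sg (x j)|
          ≤ |a l| * (2 * s / Real.sqrt |a l|) := mul_le_mul_of_nonneg_left hc (abs_nonneg _)
        _ = (Real.sqrt |a l| * Real.sqrt |a l|) * (2 * s / Real.sqrt |a l|) := by rw [← h3]
        _ = 2 * s * Real.sqrt |a l| := by field_simp
  have hw1 : |∑ j, w j i * H294BF.sg (x j)| ≤ 2 * β := hx' (Sum.inl i)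
  have hsw : ∑ j, H294BF.sg (x j) * (w j i + ∑ l, if f l j = g l i then a l else 0) =
      ∑ j, w j i * H294BF.sg (x j) +
      ∑ l, a l * ∑ j, (if f l j = g l i then (1 : ℝ) else 0) * H294BF.sg (x j) := by
    have h1 : ∑ l, a l * ∑ j, (if f l j = g l i then (1 : ℝ) else 0) * H294BF.sg (x j) =
        ∑ j, ∑ l, (if f l j = g l i then a l else 0) * H294BF.sg (x j) := by
      simp only [mul_sum]
      rw [sum_comm]
      apply sum_congr rfl
      intro j _
      apply sum_congr rfl
      intro l _
      split_ifs <;> simp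
    rw [h1, ← sum_add_distrib]
    apply sum_congr rfl
    intro j _
    rw [mul_add, mul_comm, mul_sum]
    congr 1
    apply sum_congr rfl
    intro l _
    rw [mul_comm]
  rw [hsw]
  calc |∑ j, w j i * H294BF.sg (x j) +
        ∑ l, a l * ∑ j, (if f l j = g l i then (1 : ℝ) else 0) * H294BF.sg (x j)|
      ≤ |∑ j, w j i * H294BF.sg (x j)| +
        |∑ l, a l * ∑ j, (if f l j = g l i then (1 : ℝ) else 0) * H294BF.sg (x j)| :=
        abs_add_le _ _
    _ ≤ 2 * β + ∑ l, |a l * ∑ j, (if f l j = g l i then (1 : ℝ) else 0) * H294BF.sg (x j)| :=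
        add_le_add hw1 (abs_sum_le_sum_abs _ _)
    _ ≤ 2 * β + ∑ l, 2 * s * Real.sqrt |a l| := by
        apply add_le_add_right
        apply sum_le_sum
        intro l _
        rw [abs_mul]
        exact hcl l
    _ = 2 * β + 2 * s ^ 2 := by
        rw [← mul_sum]
        ring

/-- A protocol with equality queries for an element of `α` and an element of `β`: in a query both
get a label and one asks whether the two labels are equal. The output is a real number. -/
inductive EqTree (α β : Type) : Type
  | leaf (x : ℝ) : EqTree α β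
  | query (f : α → ℕ) (g : β → ℕ) (yes no : EqTree α β) : EqTree α β

namespace EqTree

variable {α β : Type}

/-- the output -/
def value : EqTree α β → α → β → ℝ
  | leaf x, _, _ => x
  | query f g yes no, u, v => if f u = g v then yes.value u v else no.value u v

/-- the largest number of queries -/
def cost : EqTree α β → ℕ
  | leaf _ => 0
  | query _ _ yes no => max yes.cost no.cost + 1

/-- the outputs are in `[-1, 1]` -/
def Bounded : EqTree α β → Prop
  | leaf x => |x| ≤ 1
  | query _ _ yes no => yes.Bounded ∧ no.Bounded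

/-- a protocol is a combination of `3 ^ cost` equality relations -/
lemma expand : ∀ T : EqTree α β, T.Bounded → ∃ (ι : Type) (_ : Fintype ι) (a : ι → ℝ)
    (f : ι → α → ℕ) (g : ι → β → ℕ), Fintype.card ι ≤ 3 ^ T.cost ∧ (∀ l, |a l| ≤ 1) ∧
    ∀ u v, T.value u v = ∑ l, if f l u = g l v then a l else 0
  | leaf x, hx => ⟨Unit, inferInstance, fun _ => x, fun _ _ => 0, fun _ _ => 0, by simp [cost],
      fun _ => hx, fun u v => by simp [value]⟩
  | query f0 g0 yes no, hT => by
    obtain ⟨ι, _, a, f, g, h1, h2, h3⟩ := expand yes hT.1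
    obtain ⟨ι', _, a', f', g', h1', h2', h3'⟩ := expand no hT.2
    refine ⟨ι ⊕ (ι' ⊕ ι'), inferInstance,
      Sum.elim a (Sum.elim a' (fun l => - a' l)),
      Sum.elim (fun l u => Nat.pair (f0 u) (f l u))
        (Sum.elim f' (fun l u => Nat.pair (f0 u) (f' l u))),
      Sum.elim (fun l v => Nat.pair (g0 v) (g l v))
        (Sum.elim g' (fun l v => Nat.pair (g0 v) (g' l v))), ?_, ?_, ?_⟩
    · rw [Fintype.card_sum, Fintype.card_sum, cost, pow_succ]
      have e1 : (3 : ℕ) ^ yes.cost ≤ 3 ^ (max yes.cost no.cost) :=
        Nat.pow_le_pow_right (by norm_num) (le_max_left _ _)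
      have e2 : (3 : ℕ) ^ no.cost ≤ 3 ^ (max yes.cost no.cost) :=
        Nat.pow_le_pow_right (by norm_num) (le_max_right _ _)
      omega
    · intro l
      rcases l with l | l | l
      · exact h2 l
      · exact h2' l
      · simp only [Sum.elim_inr, abs_neg]
        exact h2' l
    · intro u v
      rw [Fintype.sum_sum_type, Fintype.sum_sum_type]
      show (if f0 u = g0 v then yes.value u v else no.value u v) =
        (∑ l, if Nat.pair (f0 u) (f l u) = Nat.pair (g0 v) (g l v) then a l else 0) +
        ((∑ l, if f' l u = g' l v then a' l else 0) +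
          ∑ l, if Nat.pair (f0 u) (f' l u) = Nat.pair (g0 v) (g' l v) then - a' l else 0)
      by_cases hfg : f0 u = g0 v
      · have k1 : ∀ l, (if Nat.pair (f0 u) (f l u) = Nat.pair (g0 v) (g l v) then a l else 0) =
            (if f l u = g l v then a l else 0) := by
          intro l
          simp [Nat.pair_eq_pair, hfg]
        have k2 : ∀ l, (if Nat.pair (f0 u) (f' l u) = Nat.pair (g0 v) (g' l v) then - a' l
            else 0) = - (if f' l u = g' l v then a' l else 0) := by
          intro l
          simp only [Nat.pair_eq_pair, hfg, true_and]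
          split_ifs <;> simp
        simp only [k1, k2, sum_neg_distrib]
        rw [if_pos hfg, h3 u v]
        ring
      · have k1 : ∀ l, (if Nat.pair (f0 u) (f l u) = Nat.pair (g0 v) (g l v) then a l else 0) =
            0 := by
          intro l
          rw [if_neg]
          intro h
          exact hfg (Nat.pair_eq_pair.1 h).1
        have k2 : ∀ l, (if Nat.pair (f0 u) (f' l u) = Nat.pair (g0 v) (g' l v) then - a' l
            else 0) = 0 := by
          intro l
          rw [if_neg]
          intro h
          exact hfg (Nat.pair_eq_pair.1 h).1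
        simp only [k1, k2, sum_const_zero]
        rw [if_neg hfg, h3' u v]
        ring

/-- the outputs moved to `[-1, 1]` -/
noncomputable def clip : EqTree α β → EqTree α β
  | leaf x => leaf (max (-1) (min x 1))
  | query f g yes no => query f g yes.clip no.clip

lemma clip_bounded : ∀ T : EqTree α β, T.clip.Bounded
  | leaf x => by
    show |max (-1) (min x 1)| ≤ 1
    rw [abs_le]
    exact ⟨le_max_left _ _, max_le (by norm_num) (min_le_right _ _)⟩
  | query _ _ yes no => ⟨clip_bounded yes, clip_bounded no⟩

lemma clip_cost : ∀ T : EqTree α β, T.clip.cost = T.cost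
  | leaf _ => rfl
  | query _ _ yes no => by
    show max yes.clip.cost no.clip.cost + 1 = max yes.cost no.cost + 1
    rw [clip_cost yes, clip_cost no]

lemma clip_value : ∀ (T : EqTree α β) (u : α) (v : β),
    T.clip.value u v = max (-1) (min (T.value u v) 1)
  | leaf _, _, _ => rfl
  | query f g yes no, u, v => by
    show (if f u = g v then yes.clip.value u v else no.clip.value u v) =
      max (-1) (min (if f u = g v then yes.value u v else no.value u v) 1)
    split_ifs
    · exact clip_value yes u v
    · exact clip_value no u v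

end EqTree

/-- **Vectors computed by equality queries, plus vectors of small `ℓ¹` norm.** -/
theorem queries {d n : ℕ} (T : EqTree (Fin n) (Fin d)) (hT : T.Bounded)
    (w : Fin n → Fin d → ℝ) (β : ℝ) (hw : ∀ j, ∑ i, |w j i| ≤ β) (hβ : 0 ≤ β) :
    ∃ χ : Fin n → ℝ, (∀ j, χ j = 1 ∨ χ j = -1) ∧
      ∀ i, |∑ j, χ j * (w j i + T.value j i)| ≤ 2 * β + 2 * 9 ^ T.cost := by
  obtain ⟨ι, _, a, f, g, h1, h2, h3⟩ := T.expand hT
  obtain ⟨χ, h4, h5⟩ := combinations a f g w β hw hβ
  refine ⟨χ, h4, fun i => ?_⟩
  have h6 := h5 i
  simp only [← h3] at h6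
  refine h6.trans ?_
  have h7 : ∑ l, Real.sqrt |a l| ≤ 3 ^ T.cost := by
    calc ∑ l, Real.sqrt |a l| ≤ ∑ _l : ι, (1 : ℝ) :=
          sum_le_sum fun l _ => Real.sqrt_le_one.2 (h2 l)
      _ = Fintype.card ι := by rw [sum_const, nsmul_eq_mul, mul_one, card_univ]
      _ ≤ 3 ^ T.cost := by exact_mod_cast h1
  have h8 : 0 ≤ ∑ l, Real.sqrt |a l| := sum_nonneg fun _ _ => Real.sqrt_nonneg _
  have h9 : (∑ l, Real.sqrt |a l|) ^ 2 ≤ 9 ^ T.cost := by
    calc (∑ l, Real.sqrt |a l|) ^ 2 ≤ (3 ^ T.cost) ^ 2 := pow_le_pow_left₀ h8 h7 2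
      _ = 9 ^ T.cost := by rw [← pow_mul, mul_comm, pow_mul]; norm_num
  linarith

/-- **The Komlós problem for vectors of low query complexity.** -/
theorem result :
    -- (1) combinations of equality relations, and a part with small `ℓ¹` norm
    (∀ (d n N : ℕ) (a : Fin N → ℝ) (f : Fin N → Fin n → ℕ) (g : Fin N → Fin d → ℕ)
      (w : Fin n → Fin d → ℝ) (β : ℝ), 0 ≤ β → (∀ j, ∑ i, |w j i| ≤ β) →
      ∃ ε : Fin n → ℝ, (∀ j, ε j = 1 ∨ ε j = -1) ∧
        ∀ i, |∑ j, ε j * (w j i + ∑ l, if f l j = g l i then a l else 0)| ≤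
          2 * β + 2 * (∑ l, Real.sqrt |a l|) ^ 2) ∧
    -- (2) vectors computed by equality queries, and a part with small `ℓ¹` norm
    (∀ (d n : ℕ) (T : EqTree (Fin n) (Fin d)) (w : Fin n → Fin d → ℝ) (β : ℝ), T.Bounded →
      0 ≤ β → (∀ j, ∑ i, |w j i| ≤ β) →
      ∃ ε : Fin n → ℝ, (∀ j, ε j = 1 ∨ ε j = -1) ∧
        ∀ i, |∑ j, ε j * (w j i + T.value j i)| ≤ 2 * β + 2 * 9 ^ T.cost) ∧
    -- (3) vectors in the unit ball
    (∀ (d n : ℕ) (v : Fin n → EuclideanSpace ℝ (Fin d)) (T : EqTree (Fin n) (Fin d)),
      (∀ j, ‖v j‖ ≤ 1) → (∀ j i, v j i = T.value j i) →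
      ∃ ε : Fin n → ℝ, (∀ j, ε j = 1 ∨ ε j = -1) ∧
        ∀ i, |∑ j, ε j * v j i| ≤ 2 * 9 ^ T.cost) := by
  refine ⟨fun d n N a f g w β hβ hw => combinations a f g w β hw hβ,
    fun d n T w β hT hβ hw => queries T hT w β hw hβ, ?_⟩
  intro d n v T hv hT
  obtain ⟨χ, h1, h2⟩ := queries T.clip T.clip_bounded (fun _ _ => 0) 0 (fun j => by simp) le_rfl
  refine ⟨χ, h1, fun i => ?_⟩
  have h3 := h2 i
  have h4 : ∀ j, (0 : ℝ) + T.clip.value j i = v j i := by
    intro j
    have h5 : |v j i| ≤ 1 := by
      have h6 := PiLp.norm_apply_le (v j) i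
      rw [Real.norm_eq_abs] at h6
      exact h6.trans (hv j)
    rw [zero_add, EqTree.clip_value, ← hT, min_eq_left (abs_le.1 h5).2,
      max_eq_right (abs_le.1 h5).1]
  simp only [h4, EqTree.clip_cost] at h3
  linarith

end Pool.Agent.Results.MP_c81d26_co.EqualityQueries
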