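import Pool.Agent.Run7.h715.Mat.Kom

/-!
# The Komlós problem for bases of matroids and for families with bounded exchange blocks

Let `v_1, …, v_n` be vectors in the Euclidean unit ball of `ℝ^d`, let `𝓑` be a family of subsets of
`[n]` and let `x⁰` be a convex combination of the indicator vectors of its members. We look for a
member `B` of `𝓑` for which all coordinates of `∑_{j ∈ B} v_j - ∑_j x⁰_j v_j` are small.
(For the family of all subsets and `x⁰ = (1/2, …, 1/2)` this is the problem of Komlós.)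

The family has exchange blocks of size at most `s` (`ExchangeBlocks 𝓑 s`) if for any two members
`B`, `B'` the symmetric difference `B ∆ B'` can be divided into blocks of at most `s` elements such
that `B ∆ U` is a member for every union `U` of blocks. The bases of a strongly base orderable
matroid (for example a transversal matroid, a gammoid, a laminar or a partition matroid) have
exchange blocks of size at most two, and so have its independent sets.

(1) If all families of vectors of the unit ball of `ℝ^d` have signings of value at most `β`, then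
there is always a member `B` of `𝓑` with all coordinates at most `s β`.

(2) There is an absolute constant `C` such that if the entries of the vectors are at most `δ` in
absolute value, `0 < δ ≤ 1`, there is always a member with all coordinates at most
`C s min (L^{1/4}) (1 + δ L^{1/2} (1 + log (1/δ))^{3/2})`, `L = 1 + log (1/δ) + log (1 + min n d)`.

(3) So for every point of the base polytope, or of the independent set polytope, of a strongly base
orderable matroid there is a base, or an independent set, with all coordinates at most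
`C (1 + log (1 + min n d))^{1/4}`.

(4), (5) Komlós's conjecture holds if and only if there is a constant `c` such that there is always
a member `B` with all coordinates at most `c s`; and if and only if there is a constant `c` such
that for all strongly base orderable matroids there are always a base and an independent set, for
the points of the base polytope and of the independent set polytope, with all coordinates at
most `c`.

Proof. Write `x⁰` (up to a small error) as the mean of `2^k` members, group them into pairs and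
replace the two members of every pair by one between them. The blocks in which it agrees with the
second one are determined by a signing of the block vectors, for all pairs at the same time, and
the mean changes by at most `s β / 2^k`. Repeat.
-/

set_option autoImplicit false

namespace Pool.Agent.Results.MP_c81d26_co.MatroidBases

open Run7.h715.Mat

/-- The vectors `v_1, …, v_n` lie in the closed Euclidean unit ball of `ℝ^d`. -/
def InBall {n d : ℕ} (v : Fin n → Fin d → ℝ) : Prop := ∀ i, ∑ k, v i k ^ 2 ≤ 1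

/-- Some signing of the vectors has value at most `β`. -/
def HasSigning {n d : ℕ} (v : Fin n → Fin d → ℝ) (β : ℝ) : Prop :=
  ∃ ε : Fin n → ℝ, (∀ i, ε i = 1 ∨ ε i = -1) ∧ ∀ k, |∑ i, ε i * v i k| ≤ β

/-- The convex hull of the indicator vectors of the members of the family. -/
def Hull {n : ℕ} (𝓑 : Set (Finset (Fin n))) : Set (Fin n → ℝ) :=
  convexHull ℝ {y | ∃ B ∈ 𝓑, y = fun j => if j ∈ B then 1 else 0}

/-- Some member `B` of the family is such that all coordinates of `∑_{j ∈ B} v_j - ∑_j x_j v_j` are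
at most `R` in absolute value. -/
def HasRounding {n d : ℕ} (v : Fin n → Fin d → ℝ) (𝓑 : Set (Finset (Fin n))) (x : Fin n → ℝ)
    (R : ℝ) : Prop :=
  ∃ B ∈ 𝓑, ∀ k, |∑ j ∈ B, v j k - ∑ j, x j * v j k| ≤ R

theorem abs_le_one {n d : ℕ} {v : Fin n → Fin d → ℝ} (hv : InBall v) (j : Fin n) (k : Fin d) :
    |v j k| ≤ 1 := by
  rw [← sq_le_one_iff_abs_le_one]
  exact (Finset.single_le_sum (f := fun k => v j k ^ 2) (fun _ _ => sq_nonneg _)
    (Finset.mem_univ k)).trans (hv j)

theorem transfer (d : ℕ) (β : ℝ) (hβ : 0 ≤ β)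
    (hB : ∀ (m : ℕ) (w : Fin m → Fin d → ℝ), InBall w → HasSigning w β)
    (n s : ℕ) (v : Fin n → Fin d → ℝ) (𝓑 : Set (Finset (Fin n))) (x : Fin n → ℝ) (hv : InBall v)
    (h𝓑 : ExchangeBlocks 𝓑 s) (hx : x ∈ Hull 𝓑) : HasRounding v 𝓑 x (s * β) := by
  have hS : ∀ N, Signable (Blk (d := d) (s:ℝ) 1) N (s * β) := by
    intro N
    rcases Nat.eq_zero_or_pos s with rfl | hs
    · intro m _ w hw
      refine ⟨fun _ => 1, fun _ => Or.inl rfl, fun k => ?_⟩
      have h1 : ∀ i, w i k = 0 := by
        intro i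
        have h2 := (hw i).2 k
        simp only [Nat.cast_zero, zero_mul, abs_nonpos_iff] at h2
        exact h2
      simp [h1]
    · apply signable_scale (by exact_mod_cast hs)
      intro m _ w hw _
      exact hB m w hw
  exact round_exact h𝓑 v (abs_le_one hv) (Blk (d := d) (s:ℝ) 1)
    (fun D hD σ hσ => blk_of v hv 1 zero_le_one (abs_le_one hv) D hD σ hσ) (s * β)
    (by positivity) hS hx

theorem part2 : ∃ C : ℝ, ∀ (n d s : ℕ) (v : Fin n → Fin d → ℝ) (δ : ℝ)
    (𝓑 : Set (Finset (Fin n))) (x : Fin n → ℝ), InBall v → 0 < δ → δ ≤ 1 →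
    (∀ j k, |v j k| ≤ δ) → 1 ≤ s → ExchangeBlocks 𝓑 s → x ∈ Hull 𝓑 →
    HasRounding v 𝓑 x (C * s * min
      ((1 + Real.log (1 / δ) + Real.log (1 + (min n d : ℕ))) ^ (1 / 4 : ℝ))
      (1 + δ * Real.sqrt (1 + Real.log (1 / δ) + Real.log (1 + (min n d : ℕ))) *
        (1 + Real.log (1 / δ)) ^ (3 / 2 : ℝ))) := by
  obtain ⟨C, _, hC⟩ := rounding
  exact ⟨C, fun n d s v δ 𝓑 x hv h0 h1 hvδ hs h𝓑 hx =>
    hC n d s v δ 𝓑 x h0 h1 hv hvδ hs h𝓑 hx⟩

theorem part3 : ∃ C : ℝ, ∀ (n d : ℕ) (v : Fin n → Fin d → ℝ) (M : Matroid (Fin n))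
    (x : Fin n → ℝ), InBall v → StronglyBaseOrderable M →
    (x ∈ Hull (bases M) →
      HasRounding v (bases M) x (C * (1 + Real.log (1 + (min n d : ℕ))) ^ (1 / 4 : ℝ))) ∧
    (x ∈ Hull (indeps M) →
      HasRounding v (indeps M) x (C * (1 + Real.log (1 + (min n d : ℕ))) ^ (1 / 4 : ℝ))) := by
  obtain ⟨C, hC0, hC⟩ := rounding
  have key : ∀ (n d : ℕ) (v : Fin n → Fin d → ℝ) (𝓑 : Set (Finset (Fin n))) (x : Fin n → ℝ),
      InBall v → ExchangeBlocks 𝓑 2 → x ∈ Hull 𝓑 →
      HasRounding v 𝓑 x (C * 2 * (1 + Real.log (1 + (min n d : ℕ))) ^ (1 / 4 : ℝ)) := by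
    intro n d v 𝓑 x hv h𝓑 hx
    obtain ⟨B, hB1, hB2⟩ := hC n d 2 v 1 𝓑 x one_pos le_rfl hv (abs_le_one hv) (by norm_num)
      h𝓑 hx
    refine ⟨B, hB1, fun k => (hB2 k).trans ?_⟩
    have h1 : bnd 1 (min n d) ≤ (1 + Real.log (1 + (min n d : ℕ))) ^ (1 / 4 : ℝ) := by
      refine (min_le_left _ _).trans (le_of_eq ?_)
      unfold lev
      rw [div_one, Real.log_one, add_zero]
    push_cast at h1 ⊢
    exact mul_le_mul_of_nonneg_left h1 (by positivity)
  exact ⟨C * 2, fun n d v M x hv hM =>
    ⟨fun hx => key n d v _ x hv (exchange_bases hM) hx,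
      fun hx => key n d v _ x hv (exchange_indeps hM) hx⟩⟩

theorem half_mem (n : ℕ) : (fun _ : Fin n => (1:ℝ) / 2) ∈ Hull (Set.univ : Set (Finset (Fin n))) := by
  have h0 : (fun j : Fin n => if j ∈ (∅ : Finset (Fin n)) then (1:ℝ) else 0) ∈
      Hull (Set.univ : Set (Finset (Fin n))) :=
    subset_convexHull ℝ _ ⟨∅, Set.mem_univ _, rfl⟩
  have h1 : (fun j : Fin n => if j ∈ (Finset.univ : Finset (Fin n)) then (1:ℝ) else 0) ∈
      Hull (Set.univ : Set (Finset (Fin n))) :=
    subset_convexHull ℝ _ ⟨Finset.univ, Set.mem_univ _, rfl⟩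
  have h2 := (convex_convexHull ℝ {y | ∃ B ∈ (Set.univ : Set (Finset (Fin n))),
    y = fun j => if j ∈ B then (1:ℝ) else 0}) h0 h1 (by norm_num : (0:ℝ) ≤ 1 / 2)
    (by norm_num : (0:ℝ) ≤ 1 / 2) (by norm_num)
  have h3 : (1 / 2 : ℝ) • (fun j : Fin n => if j ∈ (∅ : Finset (Fin n)) then (1:ℝ) else 0) +
      (1 / 2 : ℝ) • (fun j : Fin n => if j ∈ (Finset.univ : Finset (Fin n)) then (1:ℝ) else 0) =
      fun _ => (1:ℝ) / 2 := by
    funext j
    simp
  rw [h3] at h2
  exact h2

theorem signing_of_rounding {n d : ℕ} (v : Fin n → Fin d → ℝ) (c : ℝ)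
    (h : HasRounding v (Set.univ : Set (Finset (Fin n))) (fun _ => 1 / 2) c) :
    HasSigning v (2 * c) := by
  classical
  obtain ⟨B, _, hB⟩ := h
  refine ⟨fun j => if j ∈ B then 1 else -1, fun j => ?_, fun k => ?_⟩
  · show (if j ∈ B then (1:ℝ) else -1) = 1 ∨ (if j ∈ B then (1:ℝ) else -1) = -1
    by_cases hj : j ∈ B <;> simp [hj]
  · have h1 : ∑ j, (if j ∈ B then (1:ℝ) else -1) * v j k =
        2 * (∑ j ∈ B, v j k - ∑ j, 1 / 2 * v j k) := by
      rw [← sum_ind B (fun j => v j k), ← Finset.sum_sub_distrib, Finset.mul_sum]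
      refine Finset.sum_congr rfl fun j _ => ?_
      unfold ind
      by_cases hj : j ∈ B
      · simp only [hj, if_true]; ring
      · simp only [hj, if_false]; ring
    rw [h1, abs_mul, abs_two]
    exact mul_le_mul_of_nonneg_left (hB k) (by norm_num)

theorem part4 :
    (∃ c : ℝ, 0 < c ∧ ∀ (n d : ℕ) (v : Fin n → Fin d → ℝ), InBall v → HasSigning v c) ↔
    ∃ c : ℝ, 0 < c ∧ ∀ (n d s : ℕ) (v : Fin n → Fin d → ℝ) (𝓑 : Set (Finset (Fin n)))
      (x : Fin n → ℝ), InBall v → ExchangeBlocks 𝓑 s → x ∈ Hull 𝓑 →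
      HasRounding v 𝓑 x (s * c) := by
  constructor
  · rintro ⟨c, hc, h⟩
    exact ⟨c, hc, fun n d s v 𝓑 x hv h𝓑 hx =>
      transfer d c hc.le (fun m w hw => h m d w hw) n s v 𝓑 x hv h𝓑 hx⟩
  · rintro ⟨c, hc, h⟩
    refine ⟨2 * c, by positivity, fun n d v hv => ?_⟩
    have h1 := h n d 1 v Set.univ (fun _ => 1 / 2) hv exchange_univ (half_mem n)
    rw [Nat.cast_one, one_mul] at h1
    exact signing_of_rounding v c h1

/-- The free matroid. -/
theorem free_sbo (n : ℕ) : StronglyBaseOrderable (Matroid.freeOn (Set.univ : Set (Fin n))) := by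
  intro B B' hB hB'
  rw [Matroid.freeOn_isBase_iff] at hB hB'
  subst hB
  subst hB'
  refine ⟨id, Set.bijOn_id _, fun X _ => ?_⟩
  rw [Matroid.freeOn_isBase_iff, Set.image_id]
  exact Set.diff_union_of_subset (Set.subset_univ _)

theorem free_indeps (n : ℕ) :
    indeps (Matroid.freeOn (Set.univ : Set (Fin n))) = Set.univ := by
  ext I
  simp only [indeps, Set.mem_setOf_eq, Matroid.freeOn_indep_iff, Set.mem_univ, iff_true]
  exact Set.subset_univ _

theorem part5 :
    (∃ c : ℝ, 0 < c ∧ ∀ (n d : ℕ) (v : Fin n → Fin d → ℝ), InBall v → HasSigning v c) ↔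
    ∃ c : ℝ, 0 < c ∧ ∀ (n d : ℕ) (v : Fin n → Fin d → ℝ) (M : Matroid (Fin n)) (x : Fin n → ℝ),
      InBall v → StronglyBaseOrderable M →
      (x ∈ Hull (bases M) → HasRounding v (bases M) x c) ∧
      (x ∈ Hull (indeps M) → HasRounding v (indeps M) x c) := by
  constructor
  · rintro ⟨c, hc, h⟩
    refine ⟨2 * c, by positivity, fun n d v M x hv hM => ⟨fun hx => ?_, fun hx => ?_⟩⟩
    · exact_mod_cast transfer d c hc.le (fun m w hw => h m d w hw) n 2 v _ x hv
        (exchange_bases hM) hx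
    · exact_mod_cast transfer d c hc.le (fun m w hw => h m d w hw) n 2 v _ x hv
        (exchange_indeps hM) hx
  · rintro ⟨c, hc, h⟩
    refine ⟨2 * c, by positivity, fun n d v hv => ?_⟩
    have h1 := (h n d v (Matroid.freeOn Set.univ) (fun _ => 1 / 2) hv (free_sbo n)).2
    rw [free_indeps] at h1
    exact signing_of_rounding v c (h1 (half_mem n))

/-- **The Komlós problem for bases of matroids**: see the header of the file. -/
theorem result :
    -- (1) transfer
    (∀ (d : ℕ) (β : ℝ), 0 ≤ β →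
      (∀ (m : ℕ) (w : Fin m → Fin d → ℝ), InBall w → HasSigning w β) →
      ∀ (n s : ℕ) (v : Fin n → Fin d → ℝ) (𝓑 : Set (Finset (Fin n))) (x : Fin n → ℝ), InBall v →
        ExchangeBlocks 𝓑 s → x ∈ Hull 𝓑 → HasRounding v 𝓑 x (s * β)) ∧
    -- (2) the unconditional bound
    (∃ C : ℝ, ∀ (n d s : ℕ) (v : Fin n → Fin d → ℝ) (δ : ℝ)
      (𝓑 : Set (Finset (Fin n))) (x : Fin n → ℝ), InBall v → 0 < δ → δ ≤ 1 →
      (∀ j k, |v j k| ≤ δ) → 1 ≤ s → ExchangeBlocks 𝓑 s → x ∈ Hull 𝓑 →
      HasRounding v 𝓑 x (C * s * min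
        ((1 + Real.log (1 / δ) + Real.log (1 + (min n d : ℕ))) ^ (1 / 4 : ℝ))
        (1 + δ * Real.sqrt (1 + Real.log (1 / δ) + Real.log (1 + (min n d : ℕ))) *
          (1 + Real.log (1 / δ)) ^ (3 / 2 : ℝ)))) ∧
    -- (3) strongly base orderable matroids
    (∃ C : ℝ, ∀ (n d : ℕ) (v : Fin n → Fin d → ℝ) (M : Matroid (Fin n))
      (x : Fin n → ℝ), InBall v → StronglyBaseOrderable M →
      (x ∈ Hull (bases M) →
        HasRounding v (bases M) x (C * (1 + Real.log (1 + (min n d : ℕ))) ^ (1 / 4 : ℝ))) ∧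
      (x ∈ Hull (indeps M) →
        HasRounding v (indeps M) x (C * (1 + Real.log (1 + (min n d : ℕ))) ^ (1 / 4 : ℝ)))) ∧
    -- (4) equivalence with Komlós's conjecture, families with exchange blocks
    ((∃ c : ℝ, 0 < c ∧ ∀ (n d : ℕ) (v : Fin n → Fin d → ℝ), InBall v → HasSigning v c) ↔
      ∃ c : ℝ, 0 < c ∧ ∀ (n d s : ℕ) (v : Fin n → Fin d → ℝ) (𝓑 : Set (Finset (Fin n)))
        (x : Fin n → ℝ), InBall v → ExchangeBlocks 𝓑 s → x ∈ Hull 𝓑 →
        HasRounding v 𝓑 x (s * c)) ∧
    -- (5) equivalence with Komlós's conjecture, matroids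
    ((∃ c : ℝ, 0 < c ∧ ∀ (n d : ℕ) (v : Fin n → Fin d → ℝ), InBall v → HasSigning v c) ↔
      ∃ c : ℝ, 0 < c ∧ ∀ (n d : ℕ) (v : Fin n → Fin d → ℝ) (M : Matroid (Fin n)) (x : Fin n → ℝ),
        InBall v → StronglyBaseOrderable M →
        (x ∈ Hull (bases M) → HasRounding v (bases M) x c) ∧
        (x ∈ Hull (indeps M) → HasRounding v (indeps M) x c)) :=
  ⟨transfer, part2, part3, part4, part5⟩

end Pool.Agent.Results.MP_c81d26_co.MatroidBases
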